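import Pool.Agent.Q257.UM.VAV
import Pool.Agent.Run7.h74.AE.Iface

set_option autoImplicit false

/-! Project AE (helper74), piece VAVI (helper613): the vertical average of the argument.
Adaptation of `Pool.Agent.Q257.UM.VAV` (real part replaced by imaginary part). -/

namespace Run7.h613.AE.VAVI

open Filter Topology MeasureTheory Complex
open Pool.Agent.Q97.UM Pool.Agent.Q257.UM Pool.Agent.Q257.UM.VA Pool.Agent.Run7.h74.AE

noncomputable section

variable {ψ₁ k₀ : ℝ → ℝ}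

/-- the logarithmic derivative of zeta -/
def Zq (σ y : ℝ) : ℂ := deriv riemannZeta (σ + y * I) / riemannZeta (σ + y * I)

theorem mk_eq (σ y : ℝ) : (⟨σ, y⟩ : ℂ) = (σ : ℂ) + y * I := by
  apply Complex.ext <;> simp

theorem Zq_contAt {σ y : ℝ} (h1 : (σ : ℂ) + y * I ≠ 1) (h0 : riemannZeta (σ + y * I) ≠ 0) :
    ContinuousAt (fun p : ℝ × ℝ => Zq p.1 p.2) (σ, y) := by
  have hm : ContinuousAt (fun p : ℝ × ℝ => (p.1 : ℂ) + p.2 * I) (σ, y) :=
    (Continuous.add (continuous_ofReal.comp continuous_fst)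
      ((continuous_ofReal.comp continuous_snd).mul continuous_const)).continuousAt
  unfold Zq
  refine ContinuousAt.div ?_ ?_ h0
  · exact ContinuousAt.comp (g := deriv riemannZeta) (f := fun p : ℝ × ℝ => (p.1 : ℂ) + p.2 * I)
      (z_an h1).deriv.continuousAt hm
  · exact ContinuousAt.comp (g := riemannZeta) (f := fun p : ℝ × ℝ => (p.1 : ℂ) + p.2 * I)
      (z_an h1).continuousAt hm

theorem Zq_cont_right {σ y : ℝ} (hσ : 1 < σ) : ContinuousAt (fun p : ℝ × ℝ => Zq p.1 p.2) (σ, y) := by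
  refine Zq_contAt (fun h => ?_) (riemannZeta_ne_zero_of_one_lt_re (by simpa using hσ))
  have := congrArg Complex.re h
  simp at this
  linarith

/-- the majorant -/
def bf (σ : ℝ) : ℝ := B1 * Real.exp (Real.log 2 * (3 / 2)) * Real.exp (-Real.log 2 * σ)

theorem bf_int (a : ℝ) : IntegrableOn bf (Set.Ioi a) := by
  unfold bf
  exact (exp_neg_integrableOn_Ioi a (Real.log_pos one_lt_two)).const_mul _

theorem bf_nonneg (σ : ℝ) : 0 ≤ bf σ := by
  unfold bf
  have := B1_nonneg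
  positivity

theorem Zq_bd {σ : ℝ} (hσ : 3 / 2 ≤ σ) (y : ℝ) : ‖Zq σ y‖ ≤ bf σ := by
  have hs : 1 < ((σ : ℂ) + y * I).re := by simp; linarith
  have h := ArithmeticFunction.LSeries_vonMangoldt_eq_deriv_riemannZeta_div hs
  have h1 : ‖Zq σ y‖ = ‖LSeries (fun n => (ArithmeticFunction.vonMangoldt n : ℂ)) ((σ : ℂ) + y * I)‖ := by
    unfold Zq
    rw [h, neg_div, norm_neg]
  rw [h1]
  have h2 : Summable fun n => ‖LSeries.term (fun n => (ArithmeticFunction.vonMangoldt n : ℂ)) ((σ : ℂ) + y * I) n‖ :=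
    (ArithmeticFunction.LSeriesSummable_vonMangoldt hs).norm
  unfold LSeries
  refine (norm_tsum_le_tsum_norm h2).trans ?_
  unfold bf
  rw [mul_assoc, ← Real.exp_add]
  have e : Real.log 2 * (3 / 2) + -Real.log 2 * σ = -(Real.log 2 * (σ - 3 / 2)) := by ring
  rw [e]
  unfold B1
  rw [← tsum_mul_right]
  refine Summable.tsum_le_tsum (fun n => ?_) h2 (gt_sumn.mul_right _)
  unfold gt
  rw [LSeries.norm_term_eq, LSeries.norm_term_eq]
  by_cases hn : n = 0
  · simp [hn]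
  rw [if_neg hn, if_neg hn]
  by_cases hn1 : n = 1
  · subst hn1
    simp
  have hn2 : (2 : ℝ) ≤ n := by
    have : 2 ≤ n := by omega
    exact_mod_cast this
  have hn0 : (0 : ℝ) < n := by linarith
  have e1 : ((σ : ℂ) + y * I).re = σ := by simp
  rw [e1]
  have e2 : (n : ℝ) ^ σ = (n : ℝ) ^ (3 / 2 : ℝ) * (n : ℝ) ^ (σ - 3 / 2) := by
    rw [← Real.rpow_add hn0]
    congr 1
    ring
  have e3 : Real.exp (Real.log 2 * (σ - 3 / 2)) ≤ (n : ℝ) ^ (σ - 3 / 2) := by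
    rw [← Real.rpow_def_of_pos two_pos]
    exact Real.rpow_le_rpow two_pos.le hn2 (by linarith)
  rw [e2, Real.exp_neg]
  have h3 : 0 < (n : ℝ) ^ (3 / 2 : ℝ) := Real.rpow_pos_of_pos hn0 _
  have h4 := Real.exp_pos (Real.log 2 * (σ - 3 / 2))
  rw [← div_div, ← div_eq_mul_inv]
  exact div_le_div_of_nonneg_left (by positivity) h4 e3

/-- the part `σ > 3/2` -/
def Rr (y : ℝ) : ℝ := ∫ σ in Set.Ioi (3 / 2 : ℝ), (Zq σ y).im

theorem Zq_int_right (y : ℝ) : IntegrableOn (fun σ => (Zq σ y).im) (Set.Ioi (3 / 2 : ℝ)) := by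
  refine (bf_int (3 / 2)).mono' ?_ ?_
  · refine ContinuousOn.aestronglyMeasurable (fun σ hσ => ContinuousAt.continuousWithinAt ?_) measurableSet_Ioi
    have h1 : (1 : ℝ) < σ := by
      have : (3 / 2 : ℝ) < σ := hσ
      linarith
    have h2 : ContinuousAt (fun σ : ℝ => Zq σ y) σ :=
      ContinuousAt.comp (g := fun p : ℝ × ℝ => Zq p.1 p.2) (f := fun σ : ℝ => (σ, y)) (Zq_cont_right h1)
        (Continuous.prodMk continuous_id continuous_const).continuousAt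
    exact continuous_im.continuousAt.comp h2
  · refine (ae_restrict_iff' measurableSet_Ioi).2 (Eventually.of_forall fun σ hσ => ?_)
    exact (Complex.abs_im_le_norm _).trans (Zq_bd (le_of_lt hσ) y)

theorem Rr_cont : Continuous Rr := by
  unfold Rr
  refine continuous_of_dominated (bound := bf) (fun y => (Zq_int_right y).aestronglyMeasurable) (fun y => ?_) (bf_int (3 / 2)) ?_
  · refine (ae_restrict_iff' measurableSet_Ioi).2 (Eventually.of_forall fun σ hσ => ?_)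
    exact (Complex.abs_im_le_norm _).trans (Zq_bd (le_of_lt hσ) y)
  · refine (ae_restrict_iff' measurableSet_Ioi).2 (Eventually.of_forall fun σ hσ => ?_)
    rw [continuous_iff_continuousAt]
    intro y
    have h1 : (1 : ℝ) < σ := by
      have : (3 / 2 : ℝ) < σ := hσ
      linarith
    have h2 : ContinuousAt (fun y : ℝ => Zq σ y) y :=
      ContinuousAt.comp (g := fun p : ℝ × ℝ => Zq p.1 p.2) (f := fun y : ℝ => (σ, y)) (Zq_cont_right h1)
        (Continuous.prodMk continuous_const continuous_id).continuousAt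
    exact continuous_im.continuousAt.comp h2

/-- the bound of `Rr` -/
def Bq : ℝ := ∫ σ in Set.Ioi (3 / 2 : ℝ), bf σ

theorem Bq_nonneg : 0 ≤ Bq := integral_nonneg fun σ => bf_nonneg σ

theorem Rr_bd (y : ℝ) : |Rr y| ≤ Bq := by
  unfold Rr Bq
  rw [← Real.norm_eq_abs]
  refine norm_integral_le_of_norm_le (bf_int (3 / 2)) ?_
  refine (ae_restrict_iff' measurableSet_Ioi).2 (Eventually.of_forall fun σ hσ => ?_)
  exact (Complex.abs_im_le_norm _).trans (Zq_bd (le_of_lt hσ) y)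

/-- the argument, split at `3/2` -/
theorem az_eq {T u : ℝ} (hT : 16 ≤ T) (h1 : T / 16 < u) (h2 : u ≤ 16 * T) (h : ∀ s ∈ ZD T, s.im ≠ u) :
    az u = -((∫ σ in (1 / 2 : ℝ)..(3 / 2), (deriv riemannZeta ⟨σ, u⟩ / riemannZeta ⟨σ, u⟩).im) + Rr u) := by
  have hne : ∀ σ : ℝ, 1 / 2 ≤ σ → riemannZeta (σ + u * I) ≠ 0 := by
    intro σ hσ h0
    have h3 : σ < 1 := by
      by_contra hcon
      push Not at hcon
      exact riemannZeta_ne_zero_of_one_le_re (by simpa using hcon) h0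
    refine h ((σ : ℂ) + u * I) ((mem_ZD hT _).2 ⟨?_, ?_, ?_, ?_, h0⟩) ?_
    · simp; linarith
    · simpa using h3
    · simpa using h1
    · simpa using h2
    · simp
  have hca : ∀ σ : ℝ, 1 / 2 ≤ σ → ContinuousAt (fun σ : ℝ => (Zq σ u).im) σ := by
    intro σ hσ
    have h3 : ContinuousAt (fun σ : ℝ => Zq σ u) σ :=
      ContinuousAt.comp (g := fun p : ℝ × ℝ => Zq p.1 p.2) (f := fun σ : ℝ => (σ, u)) (Zq_contAt (fun h4 => by
        have := congrArg Complex.im h4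
        simp at this
        linarith) (hne σ hσ)) (Continuous.prodMk continuous_id continuous_const).continuousAt
    exact continuous_im.continuousAt.comp h3
  have hi1 : IntervalIntegrable (fun σ : ℝ => (Zq σ u).im) volume (1 / 2) (3 / 2) := by
    refine ContinuousOn.intervalIntegrable fun σ hσ => ?_
    rw [Set.uIcc_of_le (by norm_num)] at hσ
    exact (hca σ hσ.1).continuousWithinAt
  have hi2 : IntegrableOn (fun σ : ℝ => (Zq σ u).im) (Set.Ioi (1 / 2 : ℝ)) := by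
    rw [← Set.Ioc_union_Ioi_eq_Ioi (by norm_num : (1 / 2 : ℝ) ≤ 3 / 2)]
    refine IntegrableOn.union ?_ (Zq_int_right u)
    exact (intervalIntegrable_iff_integrableOn_Ioc_of_le (by norm_num)).1 hi1
  have h3 := intervalIntegral.integral_interval_add_Ioi hi2 (Zq_int_right u)
  unfold az Rr
  have e1 : (∫ σ in (1 / 2 : ℝ)..(3 / 2), (deriv riemannZeta ⟨σ, u⟩ / riemannZeta ⟨σ, u⟩).im) =
      ∫ σ in (1 / 2 : ℝ)..(3 / 2), (Zq σ u).im := by
    refine intervalIntegral.integral_congr fun σ _ => ?_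
    simp only [Zq, mk_eq]
  rw [e1, h3]
  rfl

theorem edge (hKB : S_KB) (hK : Ker ψ₁ k₀) {B D t c d : ℝ} (hD : 0 < D) (hcd : c ≤ d) (hB : 0 ≤ B) (g₁ : ℝ → ℝ)
    (h : ∀ y : ℝ, |g₁ y| ≤ B) :
    |∫ y in c..d, (kap ψ₁ D (((y - t : ℝ) : ℂ) * I)).re * g₁ y| ≤ B := by
  obtain ⟨-, hint, hone, -, -⟩ := hKB ψ₁ k₀ hK
  have e0 : ∀ y : ℝ, (kap ψ₁ D (((y - t : ℝ) : ℂ) * I)).re = D * k₀ (D * (y - t)) := fun y => by
    rw [kap_im hK, ofReal_re]
  set g : ℝ → ℝ := fun x => D * k₀ (D * x) with hg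
  have hgi : Integrable g := (hint.comp_mul_left' hD.ne').const_mul D
  have hgI : ∫ x : ℝ, g x = 1 := by
    rw [hg, integral_const_mul, Measure.integral_comp_mul_left k₀ D, smul_eq_mul, ← mul_assoc, abs_of_pos (inv_pos.2 hD),
      mul_inv_cancel₀ hD.ne', one_mul, hone]
  have hg0 : ∀ x, 0 ≤ g x := fun x => mul_nonneg hD.le (hK.nonneg _)
  have h1 : Integrable fun y : ℝ => B * g (y - t) := (hgi.comp_sub_right t).const_mul B
  have h2 := intervalIntegral.norm_integral_le_of_norm_le (f := fun y => (kap ψ₁ D (((y - t : ℝ) : ℂ) * I)).re *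
    g₁ y) hcd (g := fun y => B * g (y - t)) (Eventually.of_forall fun y _ => by
      rw [e0, norm_mul, Real.norm_eq_abs, Real.norm_eq_abs, abs_of_nonneg (hg0 (y - t)), mul_comm]
      exact mul_le_mul_of_nonneg_right (h y) (hg0 (y - t))) h1.intervalIntegrable
  rw [Real.norm_eq_abs] at h2
  refine h2.trans ?_
  rw [intervalIntegral.integral_of_le hcd]
  refine (setIntegral_le_integral h1 (Eventually.of_forall fun y => mul_nonneg hB (hg0 _))).trans ?_
  rw [integral_const_mul, integral_sub_right_eq_self (μ := volume) g t, hgI, mul_one]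

/-- one zero -/
theorem one_zero {C D δ L t : ℝ} (hC : 0 ≤ C) (hδ : 0 < δ) (hδ1 : δ ≤ 1) (hL : 0 < L) (hDe : D = δ * L)
    (h : ∀ D : ℝ, 0 < D → ∀ z : ℂ, 0 ≤ z.re → ‖kap ψ₁ D z‖ ≤ C * (D * Real.exp (D * z.re) / (1 + D * ‖z‖) ^ 2))
    (s : ℂ) (hs : 1 / 2 < s.re) :
    |∫ σ in (1 / 2 : ℝ)..s.re, (kap ψ₁ D (s - (σ + t * I))).im| ≤
      C / δ ^ 2 * (Real.exp (2 * δ * (L * |s.re - 1 / 2|)) / (1 + L * |s.im - t|) ^ 2) := by
  have hD : 0 < D := by rw [hDe]; positivity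
  have h1 : ∀ σ ∈ Set.uIoc (1 / 2 : ℝ) s.re, ‖(kap ψ₁ D (s - (σ + t * I))).im‖ ≤
      C * (D * Real.exp (D * (s.re - 1 / 2)) / (1 + D * |s.im - t|) ^ 2) := by
    intro σ hσ
    rw [Set.uIoc_of_le hs.le] at hσ
    have e1 : (s - (σ + t * I)).re = s.re - σ := by simp
    have e2 : (s - (σ + t * I)).im = s.im - t := by simp
    refine (Complex.abs_im_le_norm _).trans ((h D hD _ (by rw [e1]; linarith [hσ.2])).trans ?_)
    refine mul_le_mul_of_nonneg_left ?_ hC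
    have e3 : |s.im - t| ≤ ‖s - (σ + t * I)‖ := by rw [← e2]; exact Complex.abs_im_le_norm _
    rw [e1]
    have e4 : Real.exp (D * (s.re - σ)) ≤ Real.exp (D * (s.re - 1 / 2)) := by
      refine Real.exp_le_exp.2 ?_
      have := hσ.1
      gcongr
    gcongr
  have h2 := intervalIntegral.norm_integral_le_of_norm_le_const h1
  rw [Real.norm_eq_abs, abs_of_pos (by linarith : 0 < s.re - 1 / 2)] at h2
  refine h2.trans ?_
  rw [abs_of_pos (by linarith : 0 < s.re - 1 / 2)]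
  set v := D * (s.re - 1 / 2) with hv
  have hv0 : 0 < v := mul_pos hD (by linarith)
  have h3 : v * Real.exp v ≤ Real.exp (2 * v) := by
    have : v ≤ Real.exp v := by linarith [Real.add_one_le_exp v]
    calc v * Real.exp v ≤ Real.exp v * Real.exp v := mul_le_mul_of_nonneg_right this (Real.exp_pos _).le
      _ = Real.exp (2 * v) := by rw [← Real.exp_add]; congr 1; ring
  have e5 : 2 * δ * (L * (s.re - 1 / 2)) = 2 * v := by rw [hv, hDe]; ring
  rw [e5]
  have h4 : δ * (1 + L * |s.im - t|) ≤ 1 + D * |s.im - t| := by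
    rw [hDe]
    have : 0 ≤ L * |s.im - t| := by positivity
    nlinarith
  have h5 : 0 < 1 + L * |s.im - t| := by positivity
  calc C * (D * Real.exp v / (1 + D * |s.im - t|) ^ 2) * (s.re - 1 / 2) =
        C * ((v * Real.exp v) / (1 + D * |s.im - t|) ^ 2) := by rw [hv]; ring
    _ ≤ C * (Real.exp (2 * v) / (δ * (1 + L * |s.im - t|)) ^ 2) := by gcongr
    _ = _ := by field_simp

theorem PP_cmp (hK : Ker ψ₁ k₀) (D t : ℝ) : |(∫ r in (0 : ℝ)..1, SP ψ₁ D t r).im - PPi ψ₁ D t| ≤ B1 / Real.log 2 := by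
  unfold PPi
  rw [SP_int, ← Complex.sub_im, ← Finset.sum_sub_distrib]
  have hl2 : 0 < Real.log 2 := Real.log_pos one_lt_two
  refine (Complex.abs_im_le_norm _).trans ((norm_sum_le _ _).trans ?_)
  have h1 : ∀ n ∈ Finset.Icc 2 ⌊Real.exp D⌋₊,
      ‖((ArithmeticFunction.vonMangoldt n * ψ₁ (Real.log n / D) : ℝ) : ℂ) * (n : ℂ) ^ (-(3 / 2 + t * I)) *
        ((((n : ℝ) - 1) / Real.log n : ℝ) : ℂ) -
        ((ArithmeticFunction.vonMangoldt n / Real.log n * ψ₁ (Real.log n / D) : ℝ) : ℂ) * (n : ℂ) ^ (-(1 / 2 + t * I))‖ ≤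
      ‖gt 0 n‖ / Real.log 2 := by
    intro n hn
    rw [Finset.mem_Icc] at hn
    have hn0 : n ≠ 0 := by omega
    have h1 : (0 : ℝ) < n := by positivity
    have h2 : (2 : ℝ) ≤ n := by exact_mod_cast hn.1
    have h3 : Real.log 2 ≤ Real.log n := Real.log_le_log two_pos h2
    have h4 : 0 < Real.log n := by linarith
    have h4c : (Real.log n : ℂ) ≠ 0 := by exact_mod_cast h4.ne'
    have e1 : (n : ℂ) ^ (-(1 / 2 + t * I)) = (n : ℂ) * (n : ℂ) ^ (-(3 / 2 + t * I)) := by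
      have : (n : ℂ) * (n : ℂ) ^ (-(3 / 2 + t * I)) = (n : ℂ) ^ (1 : ℂ) * (n : ℂ) ^ (-(3 / 2 + t * I)) := by rw [cpow_one]
      rw [this, ← cpow_add _ _ (by exact_mod_cast hn0)]
      congr 1
      ring
    have e2 : ((ArithmeticFunction.vonMangoldt n * ψ₁ (Real.log n / D) : ℝ) : ℂ) * (n : ℂ) ^ (-(3 / 2 + t * I)) *
        ((((n : ℝ) - 1) / Real.log n : ℝ) : ℂ) -
        ((ArithmeticFunction.vonMangoldt n / Real.log n * ψ₁ (Real.log n / D) : ℝ) : ℂ) * (n : ℂ) ^ (-(1 / 2 + t * I)) =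
        -(((ψ₁ (Real.log n / D) / Real.log n : ℝ) : ℂ) * ((ArithmeticFunction.vonMangoldt n : ℂ) * (n : ℂ) ^ (-(3 / 2 + t * I)))) := by
      rw [e1]
      push_cast
      field_simp
      ring
    rw [e2, norm_neg, norm_mul]
    have e3 : ‖(ArithmeticFunction.vonMangoldt n : ℂ) * (n : ℂ) ^ (-(3 / 2 + t * I))‖ = ‖gt 0 n‖ := by
      rw [← gt_norm t n, gt_eq t t hn0]
      simp
    rw [e3, norm_real, Real.norm_eq_abs, abs_div, abs_of_pos h4]
    have h5 := hK.bd (Real.log n / D)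
    calc |ψ₁ (Real.log n / D)| / Real.log n * ‖gt 0 n‖ ≤ 1 / Real.log 2 * ‖gt 0 n‖ := by gcongr
      _ = _ := by ring
  refine (Finset.sum_le_sum h1).trans ?_
  rw [← Finset.sum_div]
  refine div_le_div_of_nonneg_right ?_ hl2.le
  exact gt_sumn.sum_le_tsum _ fun _ _ => norm_nonneg _

theorem prime_part (hKB : S_KB) (hK : Ker ψ₁ k₀) : ∃ C : ℝ, 0 ≤ C ∧ ∀ D T t c d : ℝ, 1 ≤ D → Real.exp D ≤ T →
    c ≤ t - T / 8 → t + T / 8 ≤ d →
    |-(∫ σ in (1 / 2 : ℝ)..(3 / 2), (∫ y in c..d, deriv riemannZeta ⟨3 / 2, y⟩ / riemannZeta ⟨3 / 2, y⟩ *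
      kap ψ₁ D (((3 / 2 - σ : ℝ) : ℂ) + (y - t : ℝ) * I)).im) - PPi ψ₁ D t| ≤ C := by
  obtain ⟨C, hC, h⟩ := far hKB hK
  have hB := B1_nonneg
  have hl2 : 0 < Real.log 2 := Real.log_pos one_lt_two
  refine ⟨C + B1 / Real.log 2, by positivity, fun D T t c d hD hT hc hd => ?_⟩
  set V : ℝ → ℂ := fun r => ∫ y in c..d, Gz y * kap ψ₁ D ((r : ℂ) + ((y - t : ℝ) : ℂ) * I) with hV
  have hVc : Continuous V := by
    refine intervalIntegral.continuous_parametric_intervalIntegral_of_continuous' (f := fun r y : ℝ =>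
      Gz y * kap ψ₁ D ((r : ℂ) + ((y - t : ℝ) : ℂ) * I)) ?_ c d
    exact (Gz_cont.comp continuous_snd).mul (kap_cont hK D t)
  have e0 : (∫ σ in (1 / 2 : ℝ)..(3 / 2), (∫ y in c..d, deriv riemannZeta ⟨3 / 2, y⟩ / riemannZeta ⟨3 / 2, y⟩ *
      kap ψ₁ D (((3 / 2 - σ : ℝ) : ℂ) + (y - t : ℝ) * I)).im) = ∫ r in (0 : ℝ)..1, (V r).im := by
    have h1 := intervalIntegral.integral_comp_sub_left (a := 1 / 2) (b := 3 / 2) (fun r => (V r).im) (3 / 2)
    rw [show (3 / 2 - 3 / 2 : ℝ) = 0 by norm_num, show (3 / 2 - 1 / 2 : ℝ) = 1 by norm_num] at h1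
    exact h1
  rw [e0]
  have hSc := SP_cont ψ₁ D t
  have e1 : (∫ r in (0 : ℝ)..1, SP ψ₁ D t r).im = ∫ r in (0 : ℝ)..1, (SP ψ₁ D t r).im := by
    have := Complex.imCLM.intervalIntegral_comp_comm (hSc.intervalIntegrable (μ := volume) 0 1)
    simpa using this.symm
  have h1 := PP_cmp hK D t
  rw [e1] at h1
  have h2 : |(∫ r in (0 : ℝ)..1, (V r).im) + ∫ r in (0 : ℝ)..1, (SP ψ₁ D t r).im| ≤ C := by
    have i1 : IntervalIntegrable (fun r => (V r).im) volume 0 1 := (continuous_im.comp hVc).intervalIntegrable _ _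
    have i2 : IntervalIntegrable (fun r => (SP ψ₁ D t r).im) volume 0 1 := (continuous_im.comp hSc).intervalIntegrable _ _
    rw [← intervalIntegral.integral_add i1 i2]
    have h3 := intervalIntegral.norm_integral_le_of_norm_le_const (a := 0) (b := 1)
      (f := fun r => (V r).im + (SP ψ₁ D t r).im) (C := C) (fun r hr => ?_)
    · rw [sub_zero, abs_one, mul_one] at h3
      exact h3
    · rw [Set.uIoc_of_le zero_le_one] at hr
      have h4 := h D T t c d r hD hT hc hd hr.1.le hr.2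
      rw [← Complex.add_im]
      exact (Complex.abs_im_le_norm _).trans h4
  have h5 : -(∫ r in (0 : ℝ)..1, (V r).im) - PPi ψ₁ D t = -((∫ r in (0 : ℝ)..1, (V r).im) + ∫ r in (0 : ℝ)..1, (SP ψ₁ D t r).im) +
      ((∫ r in (0 : ℝ)..1, (SP ψ₁ D t r).im) - PPi ψ₁ D t) := by ring
  rw [h5]
  refine (abs_add_le _ _).trans ?_
  rw [abs_neg]
  exact add_le_add h2 h1

open Classical in
theorem t_VAVI : J_VAVI := by
  intro hKB hLIT ψ₁ k₀ hK δ hδ hδ1
  obtain ⟨Cp, hCp, hprime⟩ := prime_part hKB hK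
  obtain ⟨C2, hC2, hk2⟩ := kap_bd hKB hK 2
  obtain ⟨C3, hC3, hk3⟩ := kap_bd hKB hK 3
  obtain ⟨Cg, hCg, hgood⟩ := H370.good_height H370.good_zeta
  have hpi := Real.pi_pos
  have hB0 := Bq_nonneg
  refine ⟨Bq + Cp + 2 * Real.pi * (C2 / δ ^ 2) + 4096 * Cg * C3, by positivity, ?_⟩
  filter_upwards [eventually_ge_atTop (Real.exp (1 / δ)), eventually_ge_atTop 64] with T hT1 hT2 t ht1 ht2
  have hT0 : 0 < T := by linarith
  have hL : 1 / δ ≤ Real.log T := by rw [Real.le_log_iff_exp_le hT0]; exact hT1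
  set L := Real.log T with hLdef
  have hL0 : 0 < L := lt_of_lt_of_le (by positivity) hL
  set D := δ * L with hD
  have hD1 : 1 ≤ D := by
    rw [div_le_iff₀ hδ] at hL
    rw [hD]; linarith
  have hD0 : 0 < D := by linarith
  have hDT : Real.exp D ≤ T := by
    rw [← Real.le_log_iff_exp_le hT0, hD, ← hLdef]
    nlinarith
  obtain ⟨U1, hU1, hg1⟩ := hgood (t - T / 8 - 1) (by linarith)
  obtain ⟨U2, hU2, hg2⟩ := hgood (t + T / 8) (by linarith)
  obtain ⟨hU1a, hU1b⟩ := hU1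
  obtain ⟨hU2a, hU2b⟩ := hU2
  have hU1b' : U1 ≤ t - T / 8 := by linarith
  refine ⟨U1, U2, hU1a, hU1b', hU2a, hU2b, ?_⟩
  have hU : U1 < U2 := by linarith
  set Z : Finset ℂ := (ZD T).filter (fun s => 1 / 2 < s.re ∧ U1 < s.im ∧ s.im < U2) with hZ
  have hlit := hLIT riemannZeta (kap ψ₁ D) (1 / 2) (3 / 2) U1 U2 t Z (by norm_num) hU
    (fun s hs => z_an (fun h => by
      have h1 : U1 ≤ s.im := hs.2.1
      rw [h, one_im] at h1
      linarith))
    (kap_diff hK D)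
    (fun y => by rw [kap_im hK, ofReal_im])
    (fun x hx => ⟨(hg1 x ⟨by linarith [hx.1], hx.2⟩).1, (hg2 x ⟨by linarith [hx.1], hx.2⟩).1⟩)
    (fun y _ => z_ne y)
    (fun s => by
      rw [hZ, Finset.mem_filter, mem_ZD (by linarith)]
      constructor
      · rintro ⟨⟨h1, h2, h3, h4, h5⟩, h6, h7, h8⟩
        exact ⟨h6, by linarith, h7, h8, h5⟩
      · rintro ⟨h1, h2, h3, h4, h5⟩
        have h6 : s.re < 1 := by
          by_contra hcon
          push Not at hcon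
          exact riemannZeta_ne_zero_of_one_le_re hcon h5
        exact ⟨⟨by linarith, h6, by linarith, by linarith, h5⟩, h1, h3, h4⟩)
  have hkc : Continuous fun y : ℝ => (kap ψ₁ D (((y - t : ℝ) : ℂ) * I)).re := by
    have h1 : Continuous (kap ψ₁ D) := (kap_diff hK D).continuous
    exact continuous_re.comp (h1.comp (by fun_prop))
  have hRi : IntervalIntegrable (fun y : ℝ => (kap ψ₁ D (((y - t : ℝ) : ℂ) * I)).re * Rr y) volume U1 U2 :=
    (hkc.mul Rr_cont).intervalIntegrable _ _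
  have e0 : (∫ u in U1..U2, D * k₀ (D * (u - t)) * az u) =
      -((∫ y in U1..U2, (kap ψ₁ D (((y - t : ℝ) : ℂ) * I)).re *
        ∫ σ in (1 / 2 : ℝ)..(3 / 2), (deriv riemannZeta ⟨σ, y⟩ / riemannZeta ⟨σ, y⟩).im) +
        ∫ y in U1..U2, (kap ψ₁ D (((y - t : ℝ) : ℂ) * I)).re * Rr y) := by
    rw [← intervalIntegral.integral_add hlit.1 hRi, ← intervalIntegral.integral_neg]
    refine intervalIntegral.integral_congr_ae ?_
    have hfin : (Complex.im '' (ZD T : Set ℂ)).Finite := (ZD T).finite_toSet.image _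
    have hae : ∀ᵐ y : ℝ, y ∉ Complex.im '' (ZD T : Set ℂ) := measure_eq_zero_iff_ae_notMem.1 (hfin.measure_zero volume)
    filter_upwards [hae] with y hy hyI
    rw [Set.uIoc_of_le hU.le] at hyI
    rw [az_eq (T := T) (u := y) (by linarith) (by linarith [hyI.1]) (by linarith [hyI.2]) (fun s hs he => hy ⟨s, hs, he⟩),
      kap_im hK, ofReal_re]
    ring
  rw [e0, hlit.2]
  have t1 := edge (t := t) hKB hK hD0 hU.le hB0 Rr Rr_bd
  have t2 := hprime D T t U1 U2 hD1 hDT hU1b' hU2a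
  have t3 : |∑ s ∈ Z, (H370.mult riemannZeta s : ℝ) * ∫ σ in (1 / 2 : ℝ)..s.re, (kap ψ₁ D (s - (σ + t * I))).im| ≤
      C2 / δ ^ 2 * SS δ T t := by
    refine (Finset.abs_sum_le_sum_abs _ _).trans ?_
    unfold SS
    rw [Finset.mul_sum]
    refine le_trans (Finset.sum_le_sum (g := fun s => C2 / δ ^ 2 * ((mz s : ℝ) * (Real.exp (2 * δ * (Real.log T * |s.re - 1 / 2|)) /
      (1 + Real.log T * |s.im - t|) ^ 2))) fun s hs => ?_) (Finset.sum_le_sum_of_subset_of_nonneg (Finset.filter_subset _ _)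
        fun s _ _ => ?_)
    · rw [abs_mul, Nat.abs_cast]
      have h1 := one_zero (L := L) (t := t) hC2 hδ (by linarith) hL0 hD hk2 s (Finset.mem_filter.1 hs).2.1
      calc (H370.mult riemannZeta s : ℝ) * |∫ σ in (1 / 2 : ℝ)..s.re, (kap ψ₁ D (s - (σ + t * I))).im| ≤
            (mz s : ℝ) * (C2 / δ ^ 2 * (Real.exp (2 * δ * (L * |s.re - 1 / 2|)) / (1 + L * |s.im - t|) ^ 2)) :=
            mul_le_mul_of_nonneg_left h1 (Nat.cast_nonneg _)
        _ = _ := by rw [hLdef]; ring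
    · positivity
  have t4 : |∫ σ in (1 / 2 : ℝ)..(3 / 2), ((∫ x in σ..(3 / 2), deriv riemannZeta ⟨x, U1⟩ / riemannZeta ⟨x, U1⟩ *
      kap ψ₁ D (((x - σ : ℝ) : ℂ) + (U1 - t : ℝ) * I)) - (∫ x in σ..(3 / 2), deriv riemannZeta ⟨x, U2⟩ / riemannZeta ⟨x, U2⟩ *
      kap ψ₁ D (((x - σ : ℝ) : ℂ) + (U2 - t : ℝ) * I))).re| ≤ 4096 * Cg * C3 := by
    have h1 := intervalIntegral.norm_integral_le_of_norm_le_const (a := 1 / 2) (b := 3 / 2)
      (f := fun σ => ((∫ x in σ..(3 / 2), deriv riemannZeta ⟨x, U1⟩ / riemannZeta ⟨x, U1⟩ *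
        kap ψ₁ D (((x - σ : ℝ) : ℂ) + (U1 - t : ℝ) * I)) - (∫ x in σ..(3 / 2), deriv riemannZeta ⟨x, U2⟩ / riemannZeta ⟨x, U2⟩ *
        kap ψ₁ D (((x - σ : ℝ) : ℂ) + (U2 - t : ℝ) * I))).re) (C := 4096 * Cg * C3) (fun σ hσ => ?_)
    · rw [Real.norm_eq_abs] at h1
      refine h1.trans (le_of_eq ?_)
      norm_num
    · rw [Set.uIoc_of_le (by norm_num)] at hσ
      have a1 := horiz (ψ₁ := ψ₁) (t := t) hC3 hCg.le hD1 hDT (by linarith) hk3 (c := U1) (V := t - T / 8 - 1)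
        (by rw [abs_sub_comm, abs_of_pos (by linarith)]; linarith) (by linarith) (by linarith) hg1 hσ.1.le hσ.2
      have a2 := horiz (ψ₁ := ψ₁) (t := t) hC3 hCg.le hD1 hDT (by linarith) hk3 (c := U2) (V := t + T / 8)
        (by rw [abs_of_pos (by linarith)]; linarith) (by linarith) (by linarith) hg2 hσ.1.le hσ.2
      refine (Complex.abs_re_le_norm _).trans ((norm_sub_le _ _).trans ?_)
      linarith
  have hSS := SS_nonneg δ T t
  set A1 := ∫ y in U1..U2, (kap ψ₁ D (((y - t : ℝ) : ℂ) * I)).re * Rr y with hA1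
  set A2 := ∫ σ in (1 / 2 : ℝ)..(3 / 2), (∫ y in U1..U2, deriv riemannZeta ⟨3 / 2, y⟩ / riemannZeta ⟨3 / 2, y⟩ *
      kap ψ₁ D (((3 / 2 - σ : ℝ) : ℂ) + (y - t : ℝ) * I)).im with hA2
  set A3 := ∑ s ∈ Z, (H370.mult riemannZeta s : ℝ) * ∫ σ in (1 / 2 : ℝ)..s.re, (kap ψ₁ D (s - (σ + t * I))).im with hA3
  set A4 := ∫ σ in (1 / 2 : ℝ)..(3 / 2), ((∫ x in σ..(3 / 2), deriv riemannZeta ⟨x, U1⟩ / riemannZeta ⟨x, U1⟩ *
      kap ψ₁ D (((x - σ : ℝ) : ℂ) + (U1 - t : ℝ) * I)) - (∫ x in σ..(3 / 2), deriv riemannZeta ⟨x, U2⟩ / riemannZeta ⟨x, U2⟩ *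
      kap ψ₁ D (((x - σ : ℝ) : ℂ) + (U2 - t : ℝ) * I))).re with hA4
  have e1 : -(A2 - 2 * Real.pi * A3 - A4 + A1) - PPi ψ₁ D t = -A1 + (-A2 - PPi ψ₁ D t) + 2 * Real.pi * A3 + A4 := by ring
  rw [e1]
  have h3 : |2 * Real.pi * A3| ≤ 2 * Real.pi * (C2 / δ ^ 2 * SS δ T t) := by
    rw [abs_mul, abs_of_pos (by positivity : 0 < 2 * Real.pi)]
    exact mul_le_mul_of_nonneg_left t3 (by positivity)
  have h4 : |-A1 + (-A2 - PPi ψ₁ D t) + 2 * Real.pi * A3 + A4| ≤ |A1| + |-A2 - PPi ψ₁ D t| + |2 * Real.pi * A3| + |A4| := by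
    rw [← abs_neg A1]
    exact (abs_add_le _ _).trans (add_le_add ((abs_add_le _ _).trans (add_le_add (abs_add_le _ _) le_rfl)) le_rfl)
  refine h4.trans ?_
  have h5 : |A1| + |-A2 - PPi ψ₁ D t| + |2 * Real.pi * A3| + |A4| ≤
      Bq + Cp + 2 * Real.pi * (C2 / δ ^ 2 * SS δ T t) + 4096 * Cg * C3 := by linarith
  refine h5.trans ?_
  have p1 : 0 ≤ 2 * Real.pi * (C2 / δ ^ 2) := by positivity
  have p2 : 0 ≤ 4096 * Cg * C3 * SS δ T t := by positivity
  have p3 : 0 ≤ (Bq + Cp) * SS δ T t := by positivity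
  nlinarith

end

end Run7.h613.AE.VAVI
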